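import Mathlib

/-!
# Box dimension of Riemann-type series: condition (H), (NV) do not give dimension `7/4 - δ/2`
-/

namespace Pool.Agent.Results.MP_dace02_an.Counterexample

open Filter Topology

/-- `g` is continuous and `1`-periodic, and `g x = ∑_k C_k exp (2 π i k x)` with absolutely
summable Fourier coefficients `C`. -/
structure HasFourier (g : ℝ → ℝ) (C : ℤ → ℂ) : Prop where
  cont : Continuous g
  periodic : ∀ x, g (x + 1) = g x
  summable : Summable fun k => ‖C k‖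
  hasSum : ∀ x : ℝ, HasSum (fun k : ℤ => C k * Complex.exp (2 * Real.pi * Complex.I * k * x))
    (g x : ℂ)

/-- Condition (H). -/
def CondH (C : ℤ → ℂ) (δ : ℝ) : Prop :=
  ∃ ε : ℝ, 0 < ε ∧ Summable fun k : ℕ => ‖C ((k : ℤ) + 1)‖ * ((k : ℝ) + 1) ^ ((ε + δ) / 2)

/-- Condition (NV). -/
def CondNV (C : ℤ → ℂ) (δ : ℝ) : Prop :=
  ∃ d₀ : ℕ, 0 < d₀ ∧ Squarefree d₀ ∧
    ∑' m : ℕ, C (((m : ℤ) + 1) ^ 2 * d₀) * (((((m : ℝ) + 1) ^ 2 * d₀) ^ (δ / 2) : ℝ) : ℂ) ≠ 0

/-- The function `G_δ`. -/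
noncomputable def G (δ : ℝ) (g : ℝ → ℝ) (x : ℝ) : ℝ :=
  ∑' n : ℕ, g (((n : ℝ) + 1) ^ 2 * x) / ((n : ℝ) + 1) ^ (1 + δ)

/-- The pairs `(i, j)` such that the closed grid square `[i/N, (i+1)/N] × [j/N, (j+1)/N]` meets the
graph of `f` over `[0, 1]`. -/
def squares (f : ℝ → ℝ) (N : ℕ) : Set (ℤ × ℤ) :=
  {p | ∃ x ∈ Set.Icc (0 : ℝ) 1, (p.1 : ℝ) / N ≤ x ∧ x ≤ ((p.1 : ℝ) + 1) / N ∧
    (p.2 : ℝ) / N ≤ f x ∧ f x ≤ ((p.2 : ℝ) + 1) / N}

/-- The upper box dimension of the graph of `f` over `[0, 1]`. -/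
noncomputable def upperBoxDim (f : ℝ → ℝ) : EReal :=
  limsup (fun N : ℕ => ((Real.log ((squares f N).ncard : ℝ) / Real.log N : ℝ) : EReal)) atTop

/-! ### Counting squares -/

lemma squares_finite {f : ℝ → ℝ} (hf : Continuous f) {N : ℕ} (hN : 0 < N) :
    (squares f N).Finite := by
  have hNr : (0 : ℝ) < N := by exact_mod_cast hN
  obtain ⟨B, hB⟩ := (isCompact_Icc (a := (0 : ℝ)) (b := 1)).exists_bound_of_continuousOn
    hf.continuousOn
  obtain ⟨M, hM⟩ := exists_nat_ge (N * B + 1)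
  apply ((Set.finite_Icc (-1 : ℤ) N).prod (Set.finite_Icc (-(M : ℤ) - 1) (M : ℤ))).subset
  rintro ⟨i, j⟩ ⟨x, ⟨hx0, hx1⟩, h1, h2, h3, h4⟩
  have hfx := hB x ⟨hx0, hx1⟩
  rw [Real.norm_eq_abs, abs_le] at hfx
  dsimp only at h1 h2 h3 h4
  rw [div_le_iff₀ hNr] at h1 h3
  rw [le_div_iff₀ hNr] at h2 h4
  simp only [Set.mem_prod, Set.mem_Icc]
  have e1 : (-1 : ℝ) ≤ i := by nlinarith
  have e2 : (i : ℝ) ≤ N := by nlinarith
  have e3 : (-(M : ℝ) - 1) ≤ j := by nlinarith [hfx.1]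
  have e4 : (j : ℝ) ≤ M := by nlinarith [hfx.2]
  refine ⟨⟨by exact_mod_cast e1, by exact_mod_cast e2⟩, by exact_mod_cast e3, by exact_mod_cast e4⟩

/-- The number of integers in `[u, v]` is at least `v - u - 1`. -/
lemma card_Icc_ge (u v : ℝ) : v - u - 1 ≤ ((Finset.Icc ⌈u⌉ ⌊v⌋).card : ℝ) := by
  rw [Int.card_Icc]
  have h1 : v - 1 < ⌊v⌋ := by linarith [Int.lt_floor_add_one v]
  have h2 : (⌈u⌉ : ℝ) < u + 1 := Int.ceil_lt_add_one u
  have h3 : ((⌊v⌋ + 1 - ⌈u⌉ : ℤ) : ℝ) ≤ ((⌊v⌋ + 1 - ⌈u⌉).toNat : ℝ) := by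
    exact_mod_cast Int.self_le_toNat _
  push_cast at h3
  linarith

lemma column {f : ℝ → ℝ} (hf : Continuous f) {N : ℕ} (hN : 0 < N) (i : ℕ) (hi : i < N) :
    ∃ S : Finset ℤ, (N : ℝ) * |f (((i : ℝ) + 1) / N) - f ((i : ℝ) / N)| ≤ S.card ∧
      ∀ j ∈ S, ((i : ℤ), j) ∈ squares f N := by
  have hNr : (0 : ℝ) < N := by exact_mod_cast hN
  set a := min (f ((i : ℝ) / N)) (f (((i : ℝ) + 1) / N)) with ha
  set b := max (f ((i : ℝ) / N)) (f (((i : ℝ) + 1) / N)) with hb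
  have hab : |f (((i : ℝ) + 1) / N) - f ((i : ℝ) / N)| = b - a := by
    rw [ha, hb, max_sub_min_eq_abs]
  have hle : (i : ℝ) / N ≤ ((i : ℝ) + 1) / N := by
    apply div_le_div_of_nonneg_right _ hNr.le
    linarith
  have hi1 : ((i : ℝ) + 1) / N ≤ 1 := by
    rw [div_le_one hNr]
    exact_mod_cast hi
  have hi0 : 0 ≤ (i : ℝ) / N := by positivity
  refine ⟨Finset.Icc ⌈N * a - 1⌉ ⌊N * b⌋, ?_, ?_⟩
  · rw [hab]
    have := card_Icc_ge (N * a - 1) (N * b)
    linarith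
  · intro j hj
    rw [Finset.mem_Icc, Int.ceil_le, Int.le_floor] at hj
    obtain ⟨hj1, hj2⟩ := hj
    -- a value in the intersection of [a, b] and [j/N, (j+1)/N]
    set y := max a ((j : ℝ) / N) with hy
    have hjb : (j : ℝ) / N ≤ b := by rw [div_le_iff₀ hNr]; linarith
    have hab' : a ≤ b := min_le_max
    have hyb : y ≤ b := max_le hab' hjb
    have hya : a ≤ y := le_max_left _ _
    have hyj : (j : ℝ) / N ≤ y := le_max_right _ _
    have hyj' : y ≤ ((j : ℝ) + 1) / N := by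
      apply max_le
      · rw [le_div_iff₀ hNr]; linarith
      · apply div_le_div_of_nonneg_right _ hNr.le
        linarith
    have hIVT : Set.uIcc (f ((i : ℝ) / N)) (f (((i : ℝ) + 1) / N)) ⊆
        f '' Set.uIcc ((i : ℝ) / N) (((i : ℝ) + 1) / N) :=
      intermediate_value_uIcc hf.continuousOn
    have hy' : y ∈ Set.uIcc (f ((i : ℝ) / N)) (f (((i : ℝ) + 1) / N)) := ⟨hya, hyb⟩
    obtain ⟨x, hx, hfx⟩ := hIVT hy'
    rw [Set.uIcc_of_le hle] at hx
    refine ⟨x, ⟨hi0.trans hx.1, hx.2.trans hi1⟩, ?_, ?_, ?_, ?_⟩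
    · simpa using hx.1
    · simpa using hx.2
    · rw [hfx]; exact hyj
    · rw [hfx]; exact hyj'

lemma count_ge {f : ℝ → ℝ} (hf : Continuous f) {N : ℕ} (hN : 0 < N) :
    (N : ℝ) * ∑ i ∈ Finset.range N, |f (((i : ℝ) + 1) / N) - f ((i : ℝ) / N)| ≤
      (squares f N).ncard := by
  have hcol := fun i : ℕ => column hf hN i
  choose! S hS1 hS2 using hcol
  have hinj : Set.InjOn (fun p : (_ : ℕ) × ℤ => ((p.1 : ℤ), p.2))
      ((Finset.range N).sigma S : Set ((_ : ℕ) × ℤ)) := by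
    rintro ⟨i, j⟩ _ ⟨i', j'⟩ _ h
    simp only [Prod.mk.injEq, Nat.cast_inj] at h
    obtain ⟨rfl, rfl⟩ := h
    rfl
  have hcard : (((Finset.range N).sigma S).image (fun p => ((p.1 : ℤ), p.2))).card
      = ∑ i ∈ Finset.range N, (S i).card := by
    rw [Finset.card_image_of_injOn hinj, Finset.card_sigma]
  have hsub : ((((Finset.range N).sigma S).image (fun p => ((p.1 : ℤ), p.2)) :
      Finset (ℤ × ℤ)) : Set (ℤ × ℤ)) ⊆ squares f N := by
    intro p hp
    rw [Finset.mem_coe, Finset.mem_image] at hp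
    obtain ⟨⟨i, j⟩, hij, rfl⟩ := hp
    rw [Finset.mem_sigma] at hij
    exact hS2 i (Finset.mem_range.mp hij.1) j hij.2
  have h1 := Set.ncard_le_ncard hsub (squares_finite hf hN)
  rw [Set.ncard_coe_finset, hcard] at h1
  rw [Finset.mul_sum]
  calc ∑ i ∈ Finset.range N, (N : ℝ) * |f (((i : ℝ) + 1) / N) - f ((i : ℝ) / N)|
      ≤ ∑ i ∈ Finset.range N, ((S i).card : ℝ) :=
        Finset.sum_le_sum fun i hi => hS1 i (Finset.mem_range.mp hi)
    _ ≤ (squares f N).ncard := by exact_mod_cast h1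

/-! ### Alternating sums -/

/-- The alternating sum of the values at the grid points. -/
noncomputable def L (N : ℕ) (f : ℝ → ℝ) : ℝ :=
  ∑ i ∈ Finset.range N, (-1) ^ i * f ((i : ℝ) / N)

lemma L_le (M : ℕ) (f : ℝ → ℝ) :
    L (2 * M) f ≤ ∑ i ∈ Finset.range (2 * M),
      |f (((i : ℝ) + 1) / (2 * M : ℕ)) - f ((i : ℝ) / (2 * M : ℕ))| := by
  unfold L
  generalize ((2 * M : ℕ) : ℝ) = R
  induction M with
  | zero => simp
  | succ M ih =>
    have e : 2 * (M + 1) = 2 * M + 1 + 1 := by ring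
    rw [e, Finset.sum_range_succ, Finset.sum_range_succ, Finset.sum_range_succ,
      Finset.sum_range_succ]
    have h1 : (-1 : ℝ) ^ (2 * M) = 1 := by rw [pow_mul]; norm_num
    have h2 : (-1 : ℝ) ^ (2 * M + 1) = -1 := by rw [pow_succ, h1]; norm_num
    rw [h1, h2]
    have h3 : ((2 * M + 1 : ℕ) : ℝ) = ((2 * M : ℕ) : ℝ) + 1 := by push_cast; ring
    rw [h3]
    have h4 := neg_abs_le (f ((((2 * M : ℕ) : ℝ) + 1) / R) - f (((2 * M : ℕ) : ℝ) / R))
    have h5 := abs_nonneg (f (((((2 * M : ℕ) : ℝ) + 1) + 1) / R) - f ((((2 * M : ℕ) : ℝ) + 1) / R))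
    linarith

lemma L_cos_eq (J : ℕ) :
    L (2 ^ (J + 1)) (fun x => Real.cos (2 * Real.pi * (2 ^ J * x))) = 2 ^ (J + 1) := by
  unfold L
  have h : ∀ i ∈ Finset.range (2 ^ (J + 1)),
      (-1 : ℝ) ^ i * Real.cos (2 * Real.pi * (2 ^ J * ((i : ℝ) / ((2 ^ (J + 1) : ℕ) : ℝ)))) = 1 := by
    intro i _
    have e : 2 * Real.pi * (2 ^ J * ((i : ℝ) / ((2 ^ (J + 1) : ℕ) : ℝ))) = i * Real.pi := by
      push_cast
      rw [pow_succ]
      field_simp
    rw [e, Real.cos_nat_mul_pi, ← mul_pow]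
    norm_num
  rw [Finset.sum_congr rfl h]
  simp

lemma L_cos_nonneg (J m : ℕ) :
    0 ≤ L (2 ^ (J + 1)) (fun x => Real.cos (2 * Real.pi * (m * x))) := by
  unfold L
  set N : ℕ := 2 ^ (J + 1) with hN
  have hN0 : (N : ℂ) ≠ 0 := by
    rw [hN]; simp
  have hNe : Even N := by
    rw [hN, pow_succ]
    exact even_two.mul_left _
  set z : ℂ := -Complex.exp (2 * Real.pi * Complex.I * (m / N)) with hz
  have hterm : ∀ i ∈ Finset.range N,
      (-1 : ℝ) ^ i * Real.cos (2 * Real.pi * (m * ((i : ℝ) / (N : ℝ)))) = (z ^ i).re := by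
    intro i _
    have e0 : z ^ i = (-1) ^ i * Complex.exp ((i : ℂ) * (2 * Real.pi * Complex.I * (m / N))) := by
      rw [hz, neg_pow, ← Complex.exp_nat_mul]
    rw [e0]
    have e1 : (i : ℂ) * (2 * Real.pi * Complex.I * (m / N))
        = ((2 * Real.pi * (m * ((i : ℝ) / (N : ℝ))) : ℝ) : ℂ) * Complex.I := by
      push_cast
      ring
    rw [e1]
    have e2 : ((-1 : ℂ)) ^ i = (((-1 : ℝ) ^ i : ℝ) : ℂ) := by push_cast; rfl
    rw [e2, Complex.re_ofReal_mul, Complex.exp_ofReal_mul_I_re]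
  rw [Finset.sum_congr rfl hterm, ← Complex.re_sum]
  have hzN : z ^ N = 1 := by
    rw [hz, neg_pow, hNe.neg_one_pow, one_mul, ← Complex.exp_nat_mul]
    have e1 : (N : ℂ) * (2 * Real.pi * Complex.I * (m / N)) = m * (2 * Real.pi * Complex.I) := by
      field_simp
    rw [e1, Complex.exp_nat_mul_two_pi_mul_I]
  by_cases h1 : z = 1
  · rw [h1]
    simp
  · rw [geom_sum_eq h1, hzN]
    simp

/-! ### The function `g` -/

/-- The amplitudes `2 ^ (-j β / 2)`. -/
noncomputable def amp (β : ℝ) (j : ℕ) : ℝ := ((2 : ℝ) ^ (-β / 2)) ^ j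

/-- The function `g`. -/
noncomputable def gg (β : ℝ) (x : ℝ) : ℝ :=
  ∑' j : ℕ, amp β j * Real.cos (2 * Real.pi * (2 ^ j * x))

lemma amp_pos (β : ℝ) (j : ℕ) : 0 < amp β j := by
  unfold amp
  positivity

lemma gg_periodic (β x : ℝ) : gg β (x + 1) = gg β x := by
  unfold gg
  apply tsum_congr
  intro j
  have e : 2 * Real.pi * (2 ^ j * (x + 1)) = 2 * Real.pi * (2 ^ j * x)
      + ((2 ^ j : ℕ) : ℝ) * (2 * Real.pi) := by
    push_cast; ring
  rw [e, Real.cos_add_nat_mul_two_pi]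

section

variable {β : ℝ} (hβ : 0 < β)

include hβ

lemma amp_base : (2 : ℝ) ^ (-β / 2) < 1 :=
  Real.rpow_lt_one_of_one_lt_of_neg (by norm_num) (by linarith)

lemma summable_amp : Summable (amp β) :=
  summable_geometric_of_lt_one (by positivity) (amp_base hβ)

lemma norm_term_le (x : ℝ) (j : ℕ) :
    ‖amp β j * Real.cos (2 * Real.pi * (2 ^ j * x))‖ ≤ amp β j := by
  rw [norm_mul, Real.norm_of_nonneg (amp_pos β j).le, Real.norm_eq_abs]
  have := Real.abs_cos_le_one (2 * Real.pi * (2 ^ j * x))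
  nlinarith [amp_pos β j]

lemma summable_term (x : ℝ) :
    Summable (fun j : ℕ => amp β j * Real.cos (2 * Real.pi * (2 ^ j * x))) :=
  Summable.of_norm_bounded (summable_amp hβ) (norm_term_le hβ x)

lemma continuous_gg : Continuous (gg β) := by
  unfold gg
  apply continuous_tsum (u := amp β)
  · intro j; fun_prop
  · exact summable_amp hβ
  · intro j x; exact norm_term_le hβ x j

lemma gg_bound (x : ℝ) : |gg β x| ≤ ∑' j, amp β j := by
  rw [← Real.norm_eq_abs]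
  exact tsum_of_norm_bounded (summable_amp hβ).hasSum (norm_term_le hβ x)

/-! ### The function `G` -/

variable {δ : ℝ} (hδ : 0 < δ)

include hδ

omit hβ in
lemma summable_weight : Summable (fun n : ℕ => 1 / ((n : ℝ) + 1) ^ (1 + δ)) := by
  have h := (summable_nat_add_iff 1).mpr
    (Real.summable_one_div_nat_rpow.mpr (by linarith : 1 < 1 + δ))
  simpa using h

lemma norm_G_term_le (x : ℝ) (n : ℕ) :
    ‖gg β (((n : ℝ) + 1) ^ 2 * x) / ((n : ℝ) + 1) ^ (1 + δ)‖
      ≤ (∑' j, amp β j) * (1 / ((n : ℝ) + 1) ^ (1 + δ)) := by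
  have hpos : 0 < ((n : ℝ) + 1) ^ (1 + δ) := by positivity
  rw [norm_div, Real.norm_of_nonneg hpos.le, Real.norm_eq_abs, div_eq_mul_one_div]
  exact mul_le_mul_of_nonneg_right (gg_bound hβ _) (by positivity)

lemma summable_G_term (x : ℝ) :
    Summable (fun n : ℕ => gg β (((n : ℝ) + 1) ^ 2 * x) / ((n : ℝ) + 1) ^ (1 + δ)) :=
  Summable.of_norm_bounded ((summable_weight hδ).mul_left _) (norm_G_term_le hβ hδ x)

lemma continuous_G : Continuous (G δ (gg β)) := by
  unfold G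
  apply continuous_tsum (u := fun n : ℕ => (∑' j, amp β j) * (1 / ((n : ℝ) + 1) ^ (1 + δ)))
  · intro n
    apply Continuous.div_const
    exact (continuous_gg hβ).comp (by fun_prop)
  · exact (summable_weight hδ).mul_left _
  · intro n x; exact norm_G_term_le hβ hδ x n

end

lemma L_hasSum {N : ℕ} {F : ℕ → ℝ → ℝ} {f : ℝ → ℝ} (h : ∀ x, HasSum (fun n => F n x) (f x)) :
    HasSum (fun n => L N (F n)) (L N f) :=
  hasSum_sum fun i _ => (h ((i : ℝ) / N)).mul_left _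

lemma L_mul (N : ℕ) (c : ℝ) (f : ℝ → ℝ) : L N (fun x => c * f x) = c * L N f := by
  unfold L
  rw [Finset.mul_sum]
  apply Finset.sum_congr rfl
  intro i _
  ring

lemma L_gg_hasSum {β : ℝ} (hβ : 0 < β) (N m : ℕ) :
    HasSum (fun j => amp β j * L N (fun x => Real.cos (2 * Real.pi * ((2 ^ j * m : ℕ) * x))))
      (L N (fun x => gg β (m * x))) := by
  have h : ∀ x : ℝ, HasSum (fun j : ℕ => amp β j * Real.cos (2 * Real.pi * ((2 ^ j * m : ℕ) * x)))
      (gg β (m * x)) := by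
    intro x
    have h1 := (summable_term hβ (m * x)).hasSum
    have e : (fun j : ℕ => amp β j * Real.cos (2 * Real.pi * ((2 ^ j * m : ℕ) * x)))
        = (fun j : ℕ => amp β j * Real.cos (2 * Real.pi * (2 ^ j * (m * x)))) := by
      funext j
      congr 2
      push_cast
      ring
    rw [e]
    exact h1
  have h2 := L_hasSum (N := N) h
  simpa only [L_mul] using h2

lemma L_gg_nonneg {β : ℝ} (hβ : 0 < β) (J m : ℕ) :
    0 ≤ L (2 ^ (J + 1)) (fun x => gg β (m * x)) :=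
  (L_gg_hasSum hβ (2 ^ (J + 1)) m).nonneg
    (fun j => mul_nonneg (amp_pos β j).le (L_cos_nonneg J _))

lemma L_gg_ge {β : ℝ} (hβ : 0 < β) (J : ℕ) :
    amp β J * 2 ^ (J + 1) ≤ L (2 ^ (J + 1)) (fun x => gg β ((1 : ℕ) * x)) := by
  have h := le_hasSum (L_gg_hasSum hβ (2 ^ (J + 1)) 1) J
    (fun j _ => mul_nonneg (amp_pos β j).le (L_cos_nonneg J _))
  have e : (fun x : ℝ => Real.cos (2 * Real.pi * ((2 ^ J * 1 : ℕ) * x)))
      = (fun x : ℝ => Real.cos (2 * Real.pi * (2 ^ J * x))) := by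
    funext x; push_cast; ring_nf
  rw [e, L_cos_eq] at h
  exact h

lemma L_G_ge {β δ : ℝ} (hβ : 0 < β) (hδ : 0 < δ) (J : ℕ) :
    amp β J * 2 ^ (J + 1) ≤ L (2 ^ (J + 1)) (G δ (gg β)) := by
  have h : ∀ x : ℝ, HasSum (fun n : ℕ => (1 / ((n : ℝ) + 1) ^ (1 + δ)) *
      gg β (((n + 1) ^ 2 : ℕ) * x)) (G δ (gg β) x) := by
    intro x
    have h1 := (summable_G_term hβ hδ x).hasSum
    have e : (fun n : ℕ => (1 / ((n : ℝ) + 1) ^ (1 + δ)) * gg β (((n + 1) ^ 2 : ℕ) * x))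
        = (fun n : ℕ => gg β (((n : ℝ) + 1) ^ 2 * x) / ((n : ℝ) + 1) ^ (1 + δ)) := by
      funext n
      push_cast
      ring
    rw [e]
    exact h1
  have h2 := L_hasSum (N := 2 ^ (J + 1)) h
  simp only [L_mul] at h2
  have h3 := le_hasSum h2 0 (fun n _ => mul_nonneg (by positivity) (L_gg_nonneg hβ J _))
  have h4 := L_gg_ge hβ J
  simp only [Nat.cast_zero, zero_add, one_pow, Real.one_rpow, ne_eq, one_ne_zero,
    not_false_eq_true, div_self, one_mul] at h3
  exact h4.trans h3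

lemma count_G {β δ : ℝ} (hβ : 0 < β) (hδ : 0 < δ) (J : ℕ) :
    (2 : ℝ) ^ (J + 1) * (amp β J * 2 ^ (J + 1)) ≤ ((squares (G δ (gg β)) (2 ^ (J + 1))).ncard : ℝ) := by
  have h1 := L_G_ge hβ hδ J
  have e : 2 ^ (J + 1) = 2 * 2 ^ J := by rw [pow_succ]; ring
  have h2 := L_le (2 ^ J) (G δ (gg β))
  rw [← e] at h2
  have h3 := count_ge (continuous_G hβ hδ) (N := 2 ^ (J + 1)) (by positivity)
  have h4 : (2 : ℝ) ^ (J + 1) * (amp β J * 2 ^ (J + 1)) ≤ ((2 ^ (J + 1) : ℕ) : ℝ) *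
      ∑ i ∈ Finset.range (2 ^ (J + 1)), |G δ (gg β) (((i : ℝ) + 1) / ((2 ^ (J + 1) : ℕ) : ℝ))
        - G δ (gg β) ((i : ℝ) / ((2 ^ (J + 1) : ℕ) : ℝ))| := by
    have e2 : ((2 ^ (J + 1) : ℕ) : ℝ) = 2 ^ (J + 1) := by push_cast; rfl
    rw [e2] at h2 ⊢
    exact mul_le_mul_of_nonneg_left (h1.trans h2) (by positivity)
  exact h4.trans h3

lemma log_ratio {β δ : ℝ} (hβ : 0 < β) (hδ : 0 < δ) (J : ℕ) :
    2 - β / 2 ≤ Real.log ((squares (G δ (gg β)) (2 ^ (J + 1))).ncard : ℝ)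
      / Real.log ((2 ^ (J + 1) : ℕ) : ℝ) := by
  have h1 := count_G hβ hδ J
  have hpos : 0 < (2 : ℝ) ^ (J + 1) * (amp β J * 2 ^ (J + 1)) := by
    have := amp_pos β J
    positivity
  have h2 := Real.log_le_log hpos h1
  have hl2 : 0 < Real.log 2 := Real.log_pos (by norm_num)
  have hlN : Real.log ((2 ^ (J + 1) : ℕ) : ℝ) = (J + 1) * Real.log 2 := by
    push_cast
    rw [Real.log_pow]
    push_cast
    ring
  have hamp : Real.log (amp β J) = -(β / 2) * J * Real.log 2 := by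
    unfold amp
    rw [Real.log_pow, Real.log_rpow (by norm_num)]
    ring
  rw [Real.log_mul (by positivity) (by have := amp_pos β J; positivity),
    Real.log_mul (amp_pos β J).ne' (by positivity), hamp, Real.log_pow] at h2
  push_cast at h2
  rw [hlN, le_div_iff₀ (by positivity)]
  have hJ : (0 : ℝ) ≤ J := Nat.cast_nonneg J
  nlinarith [mul_pos hβ hl2]

lemma upperBoxDim_ge {β δ : ℝ} (hβ : 0 < β) (hδ : 0 < δ) :
    ((2 - β / 2 : ℝ) : EReal) ≤ upperBoxDim (G δ (gg β)) := by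
  unfold upperBoxDim
  apply Filter.le_limsup_of_frequently_le
  · rw [Filter.frequently_atTop]
    intro M
    refine ⟨2 ^ (M + 1), ?_, ?_⟩
    · exact (Nat.lt_two_pow_self.le.trans (Nat.pow_le_pow_right (by norm_num) (Nat.le_succ M)))
    · exact_mod_cast log_ratio hβ hδ M
  · isBoundedDefault

/-! ### Fourier coefficients -/

/-- Positive-frequency coefficients. -/
noncomputable def cR (β : ℝ) (k : ℤ) : ℝ :=
  open Classical in if ∃ j : ℕ, k = 2 ^ j then (k : ℝ) ^ (-β / 2) / 2 else 0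

/-- The Fourier coefficients of `gg β`. -/
noncomputable def CC (β : ℝ) (k : ℤ) : ℂ := ((cR β k + cR β (-k) : ℝ) : ℂ)

lemma cR_pow (β : ℝ) (j : ℕ) : cR β (2 ^ j) = amp β j / 2 := by
  unfold cR amp
  rw [if_pos ⟨j, rfl⟩]
  push_cast
  rw [← Real.rpow_natCast, ← Real.rpow_natCast, ← Real.rpow_mul (by norm_num),
    ← Real.rpow_mul (by norm_num)]
  ring_nf

lemma cR_eq_zero (β : ℝ) {k : ℤ} (h : k ∉ Set.range (fun j : ℕ => (2 : ℤ) ^ j)) : cR β k = 0 := by
  unfold cR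
  rw [if_neg]
  rintro ⟨j, rfl⟩
  exact h ⟨j, rfl⟩

lemma cR_nonneg (β : ℝ) (k : ℤ) : 0 ≤ cR β k := by
  unfold cR
  split_ifs with h
  · obtain ⟨j, rfl⟩ := h
    positivity
  · exact le_rfl

lemma cR_neg_eq_zero (β : ℝ) {k : ℤ} (hk : 0 < k) : cR β (-k) = 0 := by
  apply cR_eq_zero
  rintro ⟨j, hj⟩
  have : (0 : ℤ) < 2 ^ j := by positivity
  simp only at hj
  omega

lemma inj_pow : Function.Injective (fun j : ℕ => (2 : ℤ) ^ j) :=
  pow_right_injective₀ (by norm_num) (by norm_num)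

lemma inj_neg_pow : Function.Injective (fun j : ℕ => -(2 : ℤ) ^ j) :=
  neg_injective.comp inj_pow

lemma hasSum_pos {β : ℝ} {e : ℤ → ℂ} {a : ℂ}
    (h : HasSum (fun j : ℕ => ((amp β j / 2 : ℝ) : ℂ) * e (2 ^ j)) a) :
    HasSum (fun k => (cR β k : ℂ) * e k) a := by
  rw [← inj_pow.hasSum_iff]
  · convert h using 2 with j
    simp only [Function.comp_apply, cR_pow]
  · intro k hk
    rw [cR_eq_zero β hk]
    simp

lemma hasSum_neg {β : ℝ} {e : ℤ → ℂ} {a : ℂ}
    (h : HasSum (fun j : ℕ => ((amp β j / 2 : ℝ) : ℂ) * e (-2 ^ j)) a) :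
    HasSum (fun k => (cR β (-k) : ℂ) * e k) a := by
  rw [← inj_neg_pow.hasSum_iff]
  · convert h using 2 with j
    simp only [Function.comp_apply, neg_neg, cR_pow]
  · intro k hk
    rw [cR_eq_zero]
    · simp
    · rintro ⟨j, hj⟩
      apply hk
      refine ⟨j, ?_⟩
      simp only at hj ⊢
      omega

lemma summable_cR {β : ℝ} (hβ : 0 < β) : Summable (cR β) := by
  rw [← inj_pow.summable_iff]
  · have : (cR β ∘ fun j : ℕ => (2 : ℤ) ^ j) = fun j => amp β j / 2 := by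
      funext j
      simp only [Function.comp_apply, cR_pow]
    rw [this]
    exact (summable_amp hβ).div_const 2
  · intro k hk
    exact cR_eq_zero β hk

lemma norm_CC (β : ℝ) (k : ℤ) : ‖CC β k‖ = cR β k + cR β (-k) := by
  unfold CC
  rw [Complex.norm_real, Real.norm_of_nonneg (add_nonneg (cR_nonneg _ _) (cR_nonneg _ _))]

lemma hasFourier {β : ℝ} (hβ : 0 < β) : HasFourier (gg β) (CC β) where
  cont := continuous_gg hβ
  periodic := gg_periodic β
  summable := by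
    simp only [norm_CC]
    apply (summable_cR hβ).add
    exact (Equiv.neg ℤ).summable_iff.mpr (summable_cR hβ)
  hasSum := by
    intro x
    set e : ℤ → ℂ := fun k => Complex.exp (2 * Real.pi * Complex.I * k * x) with he
    have hne : ∀ k : ℤ, ‖e k‖ = 1 := by
      intro k
      have : (2 * Real.pi * Complex.I * k * x : ℂ) = ((2 * Real.pi * k * x : ℝ) : ℂ) * Complex.I := by
        push_cast; ring
      rw [he]
      simp only
      rw [this, Complex.norm_exp_ofReal_mul_I]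
    have hs : ∀ i : ℕ → ℤ, Summable (fun j : ℕ => ((amp β j / 2 : ℝ) : ℂ) * e (i j)) := by
      intro i
      apply Summable.of_norm
      have : (fun j : ℕ => ‖((amp β j / 2 : ℝ) : ℂ) * e (i j)‖) = fun j => amp β j / 2 := by
        funext j
        rw [norm_mul, hne, mul_one, Complex.norm_real,
          Real.norm_of_nonneg (by have := amp_pos β j; positivity)]
      rw [this]
      exact (summable_amp hβ).div_const 2
    have h1 := hasSum_pos (hs fun j => 2 ^ j).hasSum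
    have h2 := hasSum_neg (hs fun j => -2 ^ j).hasSum
    have h3 := h1.add h2
    have h4 := (hs fun j => 2 ^ j).hasSum.add (hs fun j => -2 ^ j).hasSum
    have h5 : HasSum (fun j : ℕ => ((amp β j / 2 : ℝ) : ℂ) * e (2 ^ j)
        + ((amp β j / 2 : ℝ) : ℂ) * e (-2 ^ j)) (gg β x : ℂ) := by
      have h6 : HasSum (fun j : ℕ => ((amp β j * Real.cos (2 * Real.pi * (2 ^ j * x)) : ℝ) : ℂ))
          (gg β x : ℂ) := by
        rw [Complex.hasSum_ofReal]
        exact (summable_term hβ x).hasSum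
      convert h6 using 2 with j
      rw [he]
      push_cast
      rw [Complex.cos]
      have e1 : (2 * Real.pi * Complex.I * 2 ^ j * x : ℂ) = 2 * Real.pi * (2 ^ j * x) * Complex.I := by
        ring
      have e2 : (2 * Real.pi * Complex.I * -2 ^ j * x : ℂ)
          = -(2 * Real.pi * (2 ^ j * x)) * Complex.I := by
        ring
      rw [e1, e2]
      ring
    rw [h4.unique h5] at h3
    convert h3 using 2 with k
    unfold CC
    push_cast
    ring

lemma summable_weighted {β γ : ℝ} (hγ : γ < β / 2) :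
    Summable fun k : ℕ => ‖CC β ((k : ℤ) + 1)‖ * ((k : ℝ) + 1) ^ γ := by
  have hinj : Function.Injective (fun j : ℕ => 2 ^ j - 1) := by
    intro a b hab
    simp only at hab
    have h1 : 0 < 2 ^ a := by positivity
    have h2 : 0 < 2 ^ b := by positivity
    exact Nat.pow_right_injective le_rfl (by simp only; omega)
  rw [← hinj.summable_iff]
  · have hval : ((fun k : ℕ => ‖CC β ((k : ℤ) + 1)‖ * ((k : ℝ) + 1) ^ γ) ∘ fun j : ℕ => 2 ^ j - 1)
        = fun j : ℕ => ((2 : ℝ) ^ (γ - β / 2)) ^ j / 2 := by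
      funext j
      simp only [Function.comp_apply]
      have h1 : 1 ≤ 2 ^ j := Nat.one_le_two_pow
      have e1 : (((2 ^ j - 1 : ℕ) : ℤ) + 1) = 2 ^ j := by
        push_cast [Nat.cast_sub h1]; ring
      have e2 : (((2 ^ j - 1 : ℕ) : ℝ) + 1) = 2 ^ j := by
        push_cast [Nat.cast_sub h1]; ring
      rw [e1, e2, norm_CC, cR_neg_eq_zero β (by positivity), cR_pow, add_zero]
      unfold amp
      rw [← Real.rpow_natCast, ← Real.rpow_natCast, ← Real.rpow_natCast,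
        ← Real.rpow_mul (by norm_num), ← Real.rpow_mul (by norm_num), ← Real.rpow_mul (by norm_num),
        div_mul_eq_mul_div, ← Real.rpow_add (by norm_num)]
      ring_nf
    rw [hval]
    apply Summable.div_const
    apply summable_geometric_of_lt_one (by positivity)
    exact Real.rpow_lt_one_of_one_lt_of_neg (by norm_num) (by linarith)
  · intro k hk
    rw [norm_CC, cR_neg_eq_zero β (by positivity), cR_eq_zero]
    · simp
    · rintro ⟨j, hj⟩
      apply hk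
      refine ⟨j, ?_⟩
      simp only at hj ⊢
      have : (2 : ℕ) ^ j = k + 1 := by exact_mod_cast hj
      omega

lemma condH {β δ : ℝ} (h : δ < β) : CondH (CC β) δ := by
  refine ⟨(β - δ) / 2, by linarith, summable_weighted (by linarith)⟩

lemma condNV {β δ : ℝ} (h : δ < β) : CondNV (CC β) δ := by
  refine ⟨1, one_pos, squarefree_one, ?_⟩
  set t : ℕ → ℝ := fun k : ℕ => ‖CC β ((k : ℤ) + 1)‖ * ((k : ℝ) + 1) ^ (δ / 2) with ht
  have hts : Summable t := summable_weighted (by linarith)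
  have hinj : Function.Injective (fun m : ℕ => (m + 1) ^ 2 - 1) := by
    intro a b hab
    simp only at hab
    have h1 : 0 < (a + 1) ^ 2 := by positivity
    have h2 : 0 < (b + 1) ^ 2 := by positivity
    have h3 : (a + 1) ^ 2 = (b + 1) ^ 2 := by omega
    have h4 := Nat.pow_left_injective (by norm_num : 2 ≠ 0) h3
    omega
  have hts' := hts.comp_injective hinj
  have hterm : ∀ m : ℕ, CC β (((m : ℤ) + 1) ^ 2 * (1 : ℕ))
      * (((((m : ℝ) + 1) ^ 2 * (1 : ℕ)) ^ (δ / 2) : ℝ) : ℂ)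
      = ((t ((m + 1) ^ 2 - 1) : ℝ) : ℂ) := by
    intro m
    rw [ht]
    simp only
    have h1 : 1 ≤ (m + 1) ^ 2 := Nat.one_le_pow _ _ (by omega)
    have e1 : ((((m + 1) ^ 2 - 1 : ℕ) : ℤ) + 1) = ((m : ℤ) + 1) ^ 2 := by
      push_cast [Nat.cast_sub h1]; ring
    have e2 : ((((m + 1) ^ 2 - 1 : ℕ) : ℝ) + 1) = ((m : ℝ) + 1) ^ 2 := by
      push_cast [Nat.cast_sub h1]; ring
    rw [e1, e2, norm_CC, Nat.cast_one, Nat.cast_one, mul_one, mul_one]
    unfold CC
    push_cast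
    ring
  simp only [hterm]
  rw [← Complex.ofReal_tsum]
  have h0 : 0 < ∑' m : ℕ, t ((m + 1) ^ 2 - 1) := by
    apply hts'.tsum_pos (fun m => by
      simp only [Function.comp_apply, ht]
      positivity) 0
    simp only [Function.comp_apply, ht]
    have : (0 : ℝ) < ‖CC β 1‖ := by
      rw [norm_CC, cR_neg_eq_zero β one_pos]
      have h1 := cR_pow β 0
      have h2 := amp_pos β 0
      rw [pow_zero] at h1
      rw [h1]
      linarith
    simpa using this
  exact_mod_cast h0.ne'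

/-- **Main theorem.** For every `δ ∈ (0, 1]` and every `η > 0` there is a continuous `1`-periodic
`g` satisfying (H) and (NV) for which the upper box dimension of the graph of `G_δ` is at least
`2 - δ / 2 - η`. -/
theorem result (δ : ℝ) (hδ0 : 0 < δ) (_hδ1 : δ ≤ 1) (η : ℝ) (hη : 0 < η) :
    ∃ (g : ℝ → ℝ) (C : ℤ → ℂ), HasFourier g C ∧ CondH C δ ∧ CondNV C δ ∧
      ((2 - δ / 2 - η : ℝ) : EReal) ≤ upperBoxDim (G δ g) := by
  have hβ : 0 < δ + 2 * η := by linarith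
  refine ⟨gg (δ + 2 * η), CC (δ + 2 * η), hasFourier hβ, condH (by linarith), condNV (by linarith), ?_⟩
  have h := upperBoxDim_ge hβ hδ0
  have e : 2 - (δ + 2 * η) / 2 = 2 - δ / 2 - η := by ring
  rwa [e] at h

end Pool.Agent.Results.MP_dace02_an.Counterexample
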